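import Mathlib

/-!
Polar coordinates in `ℝ³` for integrable functions (not necessarily radial).
-/

namespace Pool.Agent.Q177.Polar

open MeasureTheory Set Metric

/-- Euclidean three-space. -/
abbrev E := EuclideanSpace ℝ (Fin 3)

theorem integral_volumeIoiPow (g : ℝ → ℝ) :
    ∫ r : Ioi (0 : ℝ), g r ∂(Measure.volumeIoiPow 2) = ∫ r in Ioi (0 : ℝ), r ^ 2 * g r := by
  simp only [Measure.volumeIoiPow, ENNReal.ofReal]
  rw [integral_withDensity_eq_integral_smul,
    integral_subtype_comap measurableSet_Ioi fun a ↦ Real.toNNReal (a ^ 2) • g a,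
    setIntegral_congr_fun measurableSet_Ioi fun x hx ↦ ?_]
  · rw [NNReal.smul_def, Real.coe_toNNReal _ (pow_nonneg hx.out.le _)]
    rfl
  · exact (measurable_subtype_coe.pow_const _).real_toNNReal

theorem integral_polar {f : E → ℝ} (hf : Integrable f) :
    ∫ x, f x = ∫ ω : sphere (0 : E) 1,
      (∫ r in Ioi (0 : ℝ), r ^ 2 * f (r • (ω : E))) ∂((volume : Measure E).toSphere) := by
  have hdim : Module.finrank ℝ E - 1 = 2 := by simp
  have hmp := (volume : Measure E).measurePreserving_homeomorphUnitSphereProd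
  rw [hdim] at hmp
  set g : sphere (0 : E) 1 × Ioi (0 : ℝ) → ℝ := fun p => f ((p.2 : ℝ) • (p.1 : E)) with hg
  have hcomp : ∀ x : ({(0 : E)}ᶜ : Set E), g (homeomorphUnitSphereProd E x) = f x := by
    intro x
    have hx : ‖(x : E)‖ ≠ 0 := norm_ne_zero_iff.mpr x.2
    simp only [hg, homeomorphUnitSphereProd_apply_snd_coe, homeomorphUnitSphereProd_apply_fst_coe]
    rw [smul_smul, mul_inv_cancel₀ hx, one_smul]
  have h1 : ∫ x, f x = ∫ x : ({(0 : E)}ᶜ : Set E), f x ∂((volume : Measure E).comap (↑)) := by
    rw [integral_subtype_comap (measurableSet_singleton _).compl f, restrict_compl_singleton]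
  have h2 : ∫ x : ({(0 : E)}ᶜ : Set E), f x ∂((volume : Measure E).comap (↑))
      = ∫ p, g p ∂((volume : Measure E).toSphere.prod (.volumeIoiPow 2)) := by
    rw [← hmp.integral_comp (Homeomorph.measurableEmbedding _) g]
    exact integral_congr_ae (Filter.Eventually.of_forall fun x => (hcomp x).symm)
  have hint : Integrable g ((volume : Measure E).toSphere.prod (.volumeIoiPow 2)) := by
    rw [← hmp.integrable_comp_emb (Homeomorph.measurableEmbedding _)]
    have h3 : IntegrableOn f ({(0 : E)}ᶜ : Set E) := hf.integrableOn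
    rw [integrableOn_iff_comap_subtypeVal (measurableSet_singleton _).compl] at h3
    refine h3.congr (Filter.Eventually.of_forall fun x => ?_)
    exact (hcomp x).symm
  rw [h1, h2, integral_prod _ hint]
  refine integral_congr_ae (Filter.Eventually.of_forall fun ω => ?_)
  exact integral_volumeIoiPow fun r => f (r • (ω : E))

end Pool.Agent.Q177.Polar
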