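import Mathlib
import Pool.Agent.Q177.Polar

/-!
The radiating field `u = ∂_z (e^{ir}/r)` in `ℝ³`: Helmholtz equation and Lagrangian density.
-/

namespace Pool.Agent.Q177.Polar

open MeasureTheory Set Metric Real InnerProductSpace
open scoped ContDiff

/-- `e^{it} (p + i q)`. -/
noncomputable def osc (p q : ℝ → ℝ) (t : ℝ) : ℂ :=
  Complex.exp (Complex.I * t) * ((p t : ℂ) + (q t : ℂ) * Complex.I)

lemma osc_hasDerivAt {p q : ℝ → ℝ} {p' q' t : ℝ} (hp : HasDerivAt p p' t)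
    (hq : HasDerivAt q q' t) :
    HasDerivAt (osc p q) (Complex.exp (Complex.I * t) *
      (((p' - q t : ℝ) : ℂ) + ((q' + p t : ℝ) : ℂ) * Complex.I)) t := by
  have h1 : HasDerivAt (fun t : ℝ => Complex.exp (Complex.I * t))
      (Complex.exp (Complex.I * t) * Complex.I) t := by
    have := ((hasDerivAt_id (t : ℂ)).const_mul Complex.I).cexp.comp_ofReal
    simpa using this
  have h2 : HasDerivAt (fun t : ℝ => ((p t : ℂ) + (q t : ℂ) * Complex.I))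
      ((p' : ℂ) + (q' : ℂ) * Complex.I) t :=
    hp.ofReal_comp.add (hq.ofReal_comp.mul_const _)
  refine (h1.mul h2).congr_deriv ?_
  push_cast
  linear_combination (Complex.exp (Complex.I * t) * (q t : ℂ)) * Complex.I_sq

noncomputable def H0 : ℝ → ℂ := osc (fun t => -(t ^ 3)⁻¹) (fun t => (t ^ 2)⁻¹)
noncomputable def H1 : ℝ → ℂ :=
  osc (fun t => -(t ^ 3)⁻¹ + 3 * (t ^ 5)⁻¹) (fun t => -3 * (t ^ 4)⁻¹)
noncomputable def H2 : ℝ → ℂ :=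
  osc (fun t => 6 * (t ^ 5)⁻¹ - 15 * (t ^ 7)⁻¹) (fun t => -(t ^ 4)⁻¹ + 15 * (t ^ 6)⁻¹)

lemma hasDerivAt_inv_pow {t : ℝ} (ht : 0 < t) (n : ℕ) :
    HasDerivAt (fun t : ℝ => (t ^ (n + 1))⁻¹) (-(n + 1) * (t ^ (n + 2))⁻¹) t := by
  have h := (hasDerivAt_pow (n + 1) t).inv (by positivity)
  refine h.congr_deriv ?_
  simp only [Nat.add_sub_cancel]
  field_simp
  push_cast
  ring

lemma H0_hasDerivAt {t : ℝ} (ht : 0 < t) : HasDerivAt H0 ((t : ℂ) * H1 t) t := by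
  have h := osc_hasDerivAt (hasDerivAt_inv_pow ht 2).neg (hasDerivAt_inv_pow ht 1)
  refine h.congr_deriv ?_
  have ht' : (t : ℂ) ≠ 0 := by exact_mod_cast ht.ne'
  simp only [H1, osc, Pi.neg_apply]
  push_cast
  field_simp
  ring

lemma H1_hasDerivAt {t : ℝ} (ht : 0 < t) : HasDerivAt H1 ((t : ℂ) * H2 t) t := by
  have h := osc_hasDerivAt ((hasDerivAt_inv_pow ht 2).neg.add
    ((hasDerivAt_inv_pow ht 4).const_mul 3)) ((hasDerivAt_inv_pow ht 3).const_mul (-3))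
  refine h.congr_deriv ?_
  have ht' : (t : ℂ) ≠ 0 := by exact_mod_cast ht.ne'
  simp only [H2, osc, Pi.neg_apply, Pi.add_apply]
  push_cast
  field_simp
  ring

lemma helm {t : ℝ} (ht : 0 < t) : 5 * H1 t + (t : ℂ) ^ 2 * H2 t + H0 t = 0 := by
  have ht' : (t : ℂ) ≠ 0 := by exact_mod_cast ht.ne'
  simp only [H0, H1, H2, osc]
  push_cast
  field_simp
  ring

/-- The field `u = ∂_z (e^{ir}/r) = z e^{ir} (i/r² - 1/r³)`. -/
noncomputable def field (x : E) : ℂ := (x 2 : ℂ) * H0 ‖x‖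

lemma hasFDerivAt_norm' {x : E} (hx : x ≠ 0) :
    HasFDerivAt (fun y : E => ‖y‖) (‖x‖⁻¹ • innerSL ℝ x) x := by
  have h0 : ‖x‖ ≠ 0 := norm_ne_zero_iff.mpr hx
  have h1 := ((hasStrictFDerivAt_norm_sq x).hasFDerivAt).sqrt (by positivity)
  have h2 : (fun y : E => √(‖y‖ ^ 2)) = fun y : E => ‖y‖ := by
    funext y; exact Real.sqrt_sq (norm_nonneg _)
  rw [h2, Real.sqrt_sq (norm_nonneg _)] at h1
  refine h1.congr_fderiv ?_
  ext v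
  simp
  field_simp

lemma comp_norm_hasFDerivAt {H : ℝ → ℂ} {K : ℂ} {x : E} (hx : x ≠ 0)
    (hH : HasDerivAt H ((‖x‖ : ℂ) * K) ‖x‖) :
    HasFDerivAt (fun y : E => H ‖y‖) ((innerSL ℝ x).smulRight K) x := by
  have h0 : ‖x‖ ≠ 0 := norm_ne_zero_iff.mpr hx
  have h0' : (‖x‖ : ℂ) ≠ 0 := by exact_mod_cast h0
  have h1 := hH.hasFDerivAt.comp x (hasFDerivAt_norm' hx)
  refine h1.congr_fderiv ?_
  ext v
  simp
  field_simp

/-- coordinate functional with complex values -/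
noncomputable def crd (i : Fin 3) : E →L[ℝ] ℂ :=
  Complex.ofRealCLM.comp (EuclideanSpace.proj i)

lemma crd_apply (i : Fin 3) (x : E) : crd i x = (x i : ℂ) := rfl

lemma field_hasFDerivAt {x : E} (hx : x ≠ 0) :
    HasFDerivAt field ((x 2 : ℂ) • ((innerSL ℝ x).smulRight (H1 ‖x‖)) + H0 ‖x‖ • crd 2) x := by
  have h0 : 0 < ‖x‖ := norm_pos_iff.mpr hx
  exact ((crd 2).hasFDerivAt).mul (comp_norm_hasFDerivAt hx (H0_hasDerivAt h0))

/-- the basis vectors -/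
noncomputable def bv (i : Fin 3) : E := EuclideanSpace.basisFun (Fin 3) ℝ i

lemma bv_apply (i j : Fin 3) : bv i j = if i = j then 1 else 0 := by
  simp [bv, EuclideanSpace.basisFun_apply, eq_comm]

lemma inner_bv (i : Fin 3) (x : E) : inner ℝ x (bv i) = x i := by
  rw [bv, EuclideanSpace.basisFun_apply, EuclideanSpace.inner_single_right]
  simp

lemma fderiv_field_bv {x : E} (hx : x ≠ 0) (i : Fin 3) :
    fderiv ℝ field x (bv i) = (if i = 2 then H0 ‖x‖ else 0)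
      + (x 2 : ℂ) * ((x i : ℂ) * H1 ‖x‖) := by
  rw [(field_hasFDerivAt hx).fderiv]
  simp only [_root_.add_apply, _root_.smul_apply,
    ContinuousLinearMap.smulRight_apply, innerSL_apply_apply, inner_bv, crd_apply, bv_apply]
  by_cases h : i = 2 <;> simp [h]
  ring

lemma field_contDiffAt {x : E} (hx : x ≠ 0) : ContDiffAt ℝ ∞ field x := by
  have h0 : ‖x‖ ≠ 0 := norm_ne_zero_iff.mpr hx
  have hn : ContDiffAt ℝ ∞ (fun y : E => ‖y‖) x := contDiffAt_norm ℝ hx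
  have hr : ∀ {g : E → ℝ}, ContDiffAt ℝ ∞ g x → ContDiffAt ℝ ∞ (fun y => (g y : ℂ)) x :=
    fun hg => Complex.ofRealCLM.contDiff.contDiffAt.comp x hg
  have h1 : ContDiffAt ℝ ∞ (fun y : E => -(‖y‖ ^ 3)⁻¹) x :=
    ((hn.pow 3).inv (pow_ne_zero _ h0)).neg
  have h2 : ContDiffAt ℝ ∞ (fun y : E => (‖y‖ ^ 2)⁻¹) x :=
    ((hn.pow 2).inv (pow_ne_zero _ h0))
  have h3 : ContDiffAt ℝ ∞ (fun y : E => Complex.exp (Complex.I * (‖y‖ : ℂ))) x :=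
    (contDiffAt_const.mul (hr hn)).cexp
  exact ((crd 2).contDiff.contDiffAt).mul
    (h3.mul ((hr h1).add ((hr h2).mul contDiffAt_const)))

lemma second_deriv {x : E} (hx : x ≠ 0) (i : Fin 3) :
    iteratedFDeriv ℝ 2 field x ![bv i, bv i] =
      (if i = 2 then 2 * (x 2 : ℂ) * H1 ‖x‖ else 0)
        + (x 2 : ℂ) * (H1 ‖x‖ + (x i : ℂ) ^ 2 * H2 ‖x‖) := by
  have h0 : 0 < ‖x‖ := norm_pos_iff.mpr hx
  rw [iteratedFDeriv_two_apply]
  have hd : DifferentiableAt ℝ (fderiv ℝ field) x :=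
    ((field_contDiffAt hx).fderiv_right (m := 1) (by norm_cast)).differentiableAt (by simp)
  have h1 : fderiv ℝ (fderiv ℝ field) x (bv i) (bv i)
      = fderiv ℝ (fun y => fderiv ℝ field y (bv i)) x (bv i) := by
    rw [fderiv_clm_apply hd (differentiableAt_const _)]
    simp
  have h2 : (fun y => fderiv ℝ field y (bv i)) =ᶠ[nhds x]
      fun y => (if i = 2 then H0 ‖y‖ else 0) + (y 2 : ℂ) * ((y i : ℂ) * H1 ‖y‖) := by
    filter_upwards [isOpen_compl_singleton.mem_nhds hx] with y hy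
    exact fderiv_field_bv hy i
  have e0 := comp_norm_hasFDerivAt hx (H0_hasDerivAt h0)
  have e1 := comp_norm_hasFDerivAt hx (H1_hasDerivAt h0)
  have h3 : HasFDerivAt (fun y : E => (y 2 : ℂ) * ((y i : ℂ) * H1 ‖y‖)) _ x :=
    ((crd 2).hasFDerivAt).mul (((crd i).hasFDerivAt).mul e1)
  show fderiv ℝ (fderiv ℝ field) x (bv i) (bv i) = _
  rw [h1, h2.fderiv_eq]
  by_cases h : i = 2
  · subst h
    simp only [if_true]
    have h4 : HasFDerivAt (fun y : E => H0 ‖y‖ + (y 2 : ℂ) * ((y 2 : ℂ) * H1 ‖y‖)) _ x :=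
      e0.add h3
    rw [h4.fderiv]
    simp only [_root_.add_apply, _root_.smul_apply,
      ContinuousLinearMap.smulRight_apply, innerSL_apply_apply, inner_bv, crd_apply, bv_apply]
    simp
    ring
  · simp only [if_neg h]
    have h4 : HasFDerivAt (fun y : E => (0 : ℂ) + (y 2 : ℂ) * ((y i : ℂ) * H1 ‖y‖)) _ x :=
      (hasFDerivAt_const (0 : ℂ) x).add h3
    rw [h4.fderiv]
    simp only [_root_.add_apply, _root_.smul_apply,
      ContinuousLinearMap.smulRight_apply, innerSL_apply_apply, inner_bv, crd_apply, bv_apply]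
    simp [h]
    exact Or.inl (by ring)

lemma norm_sq_coord (x : E) : ‖x‖ ^ 2 = x 0 ^ 2 + x 1 ^ 2 + x 2 ^ 2 := by
  rw [EuclideanSpace.norm_sq_eq, Fin.sum_univ_three]
  simp only [Real.norm_eq_abs, sq_abs]

theorem helmholtz {x : E} (hx : x ≠ 0) : Laplacian.laplacian field x + field x = 0 := by
  have h0 : 0 < ‖x‖ := norm_pos_iff.mpr hx
  rw [InnerProductSpace.laplacian_eq_iteratedFDeriv_orthonormalBasis field
    (EuclideanSpace.basisFun (Fin 3) ℝ)]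
  have h1 : ∀ i : Fin 3, iteratedFDeriv ℝ 2 field x
      ![EuclideanSpace.basisFun (Fin 3) ℝ i, EuclideanSpace.basisFun (Fin 3) ℝ i] = _ :=
    fun i => second_deriv hx i
  simp only [h1]
  rw [Fin.sum_univ_three]
  have h2 := helm h0
  have h3 : (‖x‖ : ℂ) ^ 2 = (x 0 : ℂ) ^ 2 + (x 1 : ℂ) ^ 2 + (x 2 : ℂ) ^ 2 := by
    exact_mod_cast congrArg (fun r : ℝ => (r : ℂ)) (norm_sq_coord x)
  rw [h3] at h2
  have e0 : ((0 : Fin 3) = 2) = False := by simp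
  have e1 : ((1 : Fin 3) = 2) = False := by simp
  simp only [field, e0, e1, if_true, if_false]
  linear_combination (x 2 : ℂ) * h2

lemma norm_sq_osc (t a b : ℝ) :
    ‖Complex.exp (Complex.I * t) * ((a : ℂ) + (b : ℂ) * Complex.I)‖ ^ 2 = a ^ 2 + b ^ 2 := by
  rw [norm_mul, mul_comm Complex.I, Complex.norm_exp_ofReal_mul_I, one_mul, Complex.sq_norm,
    Complex.normSq_add_mul_I]

/-- The Lagrangian density `|u|² - |∇u|²`. -/
noncomputable def dens (x : E) : ℝ :=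
  -(‖x‖ ^ 4)⁻¹ - (‖x‖ ^ 6)⁻¹ + x 2 ^ 2 * (2 * (‖x‖ ^ 6)⁻¹ - 3 * (‖x‖ ^ 8)⁻¹)

theorem lagr_density {x : E} (hx : x ≠ 0) :
    ‖field x‖ ^ 2 - ∑ i : Fin 3, ‖fderiv ℝ field x (EuclideanSpace.basisFun (Fin 3) ℝ i)‖ ^ 2
      = dens x := by
  have h0 : 0 < ‖x‖ := norm_pos_iff.mpr hx
  have h1 : ∀ i : Fin 3, fderiv ℝ field x (EuclideanSpace.basisFun (Fin 3) ℝ i)
      = (if i = 2 then H0 ‖x‖ else 0) + (x 2 : ℂ) * ((x i : ℂ) * H1 ‖x‖) :=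
    fun i => fderiv_field_bv hx i
  have h3 : x 0 ^ 2 + x 1 ^ 2 = ‖x‖ ^ 2 - x 2 ^ 2 := by
    rw [norm_sq_coord x]; ring
  have e0 : ((0 : Fin 3) = 2) = False := by simp
  have e1 : ((1 : Fin 3) = 2) = False := by simp
  have f0 : ‖field x‖ ^ 2
      = (x 2 * (-(‖x‖ ^ 3)⁻¹)) ^ 2 + (x 2 * (‖x‖ ^ 2)⁻¹) ^ 2 := by
    rw [← norm_sq_osc ‖x‖]
    congr 2
    simp only [field, H0, osc]
    push_cast
    ring
  have g0 : ‖(0 : ℂ) + (x 2 : ℂ) * ((x 0 : ℂ) * H1 ‖x‖)‖ ^ 2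
      = (x 2 * x 0 * (-(‖x‖ ^ 3)⁻¹ + 3 * (‖x‖ ^ 5)⁻¹)) ^ 2
        + (x 2 * x 0 * (-3 * (‖x‖ ^ 4)⁻¹)) ^ 2 := by
    rw [← norm_sq_osc ‖x‖]
    congr 2
    simp only [H1, osc]
    push_cast
    ring
  have g1 : ‖(0 : ℂ) + (x 2 : ℂ) * ((x 1 : ℂ) * H1 ‖x‖)‖ ^ 2
      = (x 2 * x 1 * (-(‖x‖ ^ 3)⁻¹ + 3 * (‖x‖ ^ 5)⁻¹)) ^ 2
        + (x 2 * x 1 * (-3 * (‖x‖ ^ 4)⁻¹)) ^ 2 := by
    rw [← norm_sq_osc ‖x‖]
    congr 2
    simp only [H1, osc]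
    push_cast
    ring
  have g2 : ‖H0 ‖x‖ + (x 2 : ℂ) * ((x 2 : ℂ) * H1 ‖x‖)‖ ^ 2
      = (-(‖x‖ ^ 3)⁻¹ + x 2 * x 2 * (-(‖x‖ ^ 3)⁻¹ + 3 * (‖x‖ ^ 5)⁻¹)) ^ 2
        + ((‖x‖ ^ 2)⁻¹ + x 2 * x 2 * (-3 * (‖x‖ ^ 4)⁻¹)) ^ 2 := by
    rw [← norm_sq_osc ‖x‖]
    congr 2
    simp only [H0, H1, osc]
    push_cast
    ring
  simp only [h1, Fin.sum_univ_three, e0, e1, if_true, if_false]
  rw [f0, g0, g1, g2]
  unfold dens
  have key : (x 2 * x 0 * (-(‖x‖ ^ 3)⁻¹ + 3 * (‖x‖ ^ 5)⁻¹)) ^ 2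
        + (x 2 * x 0 * (-3 * (‖x‖ ^ 4)⁻¹)) ^ 2
        + ((x 2 * x 1 * (-(‖x‖ ^ 3)⁻¹ + 3 * (‖x‖ ^ 5)⁻¹)) ^ 2
        + (x 2 * x 1 * (-3 * (‖x‖ ^ 4)⁻¹)) ^ 2)
      = x 2 ^ 2 * (‖x‖ ^ 2 - x 2 ^ 2) *
        ((-(‖x‖ ^ 3)⁻¹ + 3 * (‖x‖ ^ 5)⁻¹) ^ 2 + (-3 * (‖x‖ ^ 4)⁻¹) ^ 2) := by
    rw [← h3]; ring
  rw [key]
  field_simp
  ring

end Pool.Agent.Q177.Polar
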