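import Mathlib
import Pool.Agent.Q177.Polar

/-!
Gaussian moments in `ℝ³` and positivity of a sphere integral.
-/

namespace Pool.Agent.Q177.Polar

open MeasureTheory Set Metric Real

/-- One-dimensional Gaussian moments. -/
noncomputable def mom (k : ℕ) : ℝ := ∫ t : ℝ, t ^ (2 * k) * Real.exp (-t ^ 2)

lemma mom_eq (k : ℕ) : mom k = Real.Gamma (k + 1 / 2) := by
  have h1 : ∀ t : ℝ, t ^ (2 * k) * Real.exp (-t ^ 2)
      = (fun x : ℝ => x ^ (2 * k) * Real.exp (-x ^ 2)) |t| := by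
    intro t
    simp only [pow_mul, sq_abs]
  have h2 : mom k = ∫ t : ℝ, (fun x : ℝ => x ^ (2 * k) * Real.exp (-x ^ 2)) |t| := by
    rw [mom]
    exact integral_congr_ae (Filter.Eventually.of_forall h1)
  rw [h2, integral_comp_abs (f := fun x : ℝ => x ^ (2 * k) * Real.exp (-x ^ 2))]
  have h3 : ∫ x in Ioi (0 : ℝ), x ^ (2 * k) * Real.exp (-x ^ 2)
      = ∫ x in Ioi (0 : ℝ), x ^ (((2 * k : ℕ) : ℝ)) * Real.exp (-x ^ (2 : ℝ)) := by
    refine setIntegral_congr_fun measurableSet_Ioi fun x hx => ?_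
    simp only [Real.rpow_natCast, Real.rpow_two]
  rw [h3, integral_rpow_mul_exp_neg_rpow (by norm_num)
    (lt_of_lt_of_le (by norm_num) (Nat.cast_nonneg _))]
  have h4 : (((2 * k : ℕ) : ℝ) + 1) / 2 = k + 1 / 2 := by
    push_cast
    ring
  rw [h4]
  ring

lemma mom_zero : mom 0 = √π := by
  rw [mom_eq]; simpa using Real.Gamma_one_half_eq

lemma mom_one : mom 1 = √π / 2 := by
  rw [mom_eq, Real.Gamma_nat_add_half]
  simp [Nat.doubleFactorial]

lemma mom_two : mom 2 = 3 / 4 * √π := by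
  rw [mom_eq, Real.Gamma_nat_add_half]
  simp [Nat.doubleFactorial]
  ring

lemma integrable_mom (k : ℕ) : Integrable fun t : ℝ => t ^ (2 * k) * Real.exp (-t ^ 2) := by
  by_contra h
  have h1 : mom k = 0 := integral_undef h
  rw [mom_eq] at h1
  exact (Real.Gamma_pos_of_pos (by positivity)).ne' h1

lemma gauss_mono (a b c : ℕ) :
    Integrable (fun x : E => x 0 ^ (2 * a) * x 1 ^ (2 * b) * x 2 ^ (2 * c)
      * Real.exp (-‖x‖ ^ 2)) ∧
    ∫ x : E, x 0 ^ (2 * a) * x 1 ^ (2 * b) * x 2 ^ (2 * c) * Real.exp (-‖x‖ ^ 2)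
      = mom a * mom b * mom c := by
  set k : Fin 3 → ℕ := ![a, b, c] with hk
  set f : Fin 3 → ℝ → ℝ := fun i t => t ^ (2 * k i) * Real.exp (-t ^ 2) with hf
  have hint : Integrable (fun x : Fin 3 → ℝ => ∏ i, f i (x i)) :=
    Integrable.fintype_prod (f := f) fun i => integrable_mom (k i)
  have hval : ∫ x : Fin 3 → ℝ, ∏ i, f i (x i) = mom a * mom b * mom c := by
    rw [integral_fintype_prod_volume_eq_prod, Fin.prod_univ_three]
    rfl
  have hmp := PiLp.volume_preserving_ofLp (Fin 3)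
  have hcomp : ∀ x : E, x 0 ^ (2 * a) * x 1 ^ (2 * b) * x 2 ^ (2 * c) * Real.exp (-‖x‖ ^ 2)
      = ∏ i, f i (WithLp.ofLp x i) := by
    intro x
    rw [Fin.prod_univ_three, EuclideanSpace.norm_sq_eq, Fin.sum_univ_three]
    simp only [hf, hk, Matrix.cons_val_zero, Matrix.cons_val_one, Matrix.cons_val_two,
      Real.norm_eq_abs, sq_abs]
    have : -(x 0 ^ 2 + x 1 ^ 2 + x 2 ^ 2) = -x 0 ^ 2 + -x 1 ^ 2 + -x 2 ^ 2 := by ring
    rw [this, Real.exp_add, Real.exp_add]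
    simp
    ring
  constructor
  · have := (hmp.integrable_comp_emb
      (MeasurableEquiv.measurableEmbedding (MeasurableEquiv.toLp 2 (Fin 3 → ℝ)).symm)).mpr hint
    refine this.congr (Filter.Eventually.of_forall fun x => ?_)
    exact (hcomp x).symm
  · rw [← hval, ← hmp.integral_comp
      (MeasurableEquiv.measurableEmbedding (MeasurableEquiv.toLp 2 (Fin 3 → ℝ)).symm)]
    exact integral_congr_ae (Filter.Eventually.of_forall hcomp)

/-- The quartic `(2z² - r²)(z² + r²/10)` times the Gaussian weight. -/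
noncomputable def quartic (x : E) : ℝ :=
  (2 * x 2 ^ 2 - ‖x‖ ^ 2) * (x 2 ^ 2 + ‖x‖ ^ 2 / 10) * Real.exp (-‖x‖ ^ 2)

lemma quartic_eq (x : E) : quartic x =
    11 / 10 * (x 0 ^ (2 * 0) * x 1 ^ (2 * 0) * x 2 ^ (2 * 2) * Real.exp (-‖x‖ ^ 2))
    - (x 0 ^ (2 * 1) * x 1 ^ (2 * 0) * x 2 ^ (2 * 1) * Real.exp (-‖x‖ ^ 2))
    - (x 0 ^ (2 * 0) * x 1 ^ (2 * 1) * x 2 ^ (2 * 1) * Real.exp (-‖x‖ ^ 2))
    - 1 / 10 * (x 0 ^ (2 * 2) * x 1 ^ (2 * 0) * x 2 ^ (2 * 0) * Real.exp (-‖x‖ ^ 2))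
    - 1 / 10 * (x 0 ^ (2 * 0) * x 1 ^ (2 * 2) * x 2 ^ (2 * 0) * Real.exp (-‖x‖ ^ 2))
    - 1 / 5 * (x 0 ^ (2 * 1) * x 1 ^ (2 * 1) * x 2 ^ (2 * 0) * Real.exp (-‖x‖ ^ 2)) := by
  have h : ‖x‖ ^ 2 = x 0 ^ 2 + x 1 ^ 2 + x 2 ^ 2 := by
    rw [EuclideanSpace.norm_sq_eq, Fin.sum_univ_three]
    simp only [Real.norm_eq_abs, sq_abs]
  unfold quartic
  generalize Real.exp (-‖x‖ ^ 2) = w
  rw [h]
  ring

lemma hv_sub {f g : E → ℝ} {a b : ℝ} (hf : Integrable f ∧ ∫ x, f x = a)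
    (hg : Integrable g ∧ ∫ x, g x = b) :
    Integrable (fun x => f x - g x) ∧ ∫ x, (f x - g x) = a - b :=
  ⟨hf.1.sub hg.1, by rw [integral_sub hf.1 hg.1, hf.2, hg.2]⟩

lemma hv_mul {f : E → ℝ} {a : ℝ} (c : ℝ) (hf : Integrable f ∧ ∫ x, f x = a) :
    Integrable (fun x => c * f x) ∧ ∫ x, (c * f x) = c * a :=
  ⟨hf.1.const_mul c, by rw [integral_const_mul, hf.2]⟩

lemma quartic_val : Integrable quartic ∧ ∫ x, quartic x = √π ^ 3 / 8 := by
  have h := hv_sub (hv_sub (hv_sub (hv_sub (hv_sub (hv_mul (11 / 10) (gauss_mono 0 0 2))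
    (gauss_mono 1 0 1)) (gauss_mono 0 1 1)) (hv_mul (1 / 10) (gauss_mono 2 0 0)))
    (hv_mul (1 / 10) (gauss_mono 0 2 0))) (hv_mul (1 / 5) (gauss_mono 1 1 0))
  have he : quartic = fun x : E => _ := funext quartic_eq
  rw [he]
  refine ⟨h.1, h.2.trans ?_⟩
  rw [mom_zero, mom_one, mom_two]
  ring

/-- The weight `q(ω) = (2ω_z² - 1)(ω_z² + 1/10)` has positive integral over the sphere. -/
theorem sphere_pos :
    0 < ∫ ω : sphere (0 : E) 1, (2 * (ω : E) 2 ^ 2 - 1) * ((ω : E) 2 ^ 2 + 1 / 10)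
      ∂((volume : Measure E).toSphere) := by
  have h1 := integral_polar quartic_val.1
  rw [quartic_val.2] at h1
  have h2 : ∀ ω : sphere (0 : E) 1, ∫ r in Ioi (0 : ℝ), r ^ 2 * quartic (r • (ω : E))
      = (2 * (ω : E) 2 ^ 2 - 1) * ((ω : E) 2 ^ 2 + 1 / 10)
        * ∫ r in Ioi (0 : ℝ), r ^ 6 * Real.exp (-r ^ 2) := by
    intro ω
    rw [← integral_const_mul]
    refine setIntegral_congr_fun measurableSet_Ioi fun r hr => ?_
    have hr0 : (0 : ℝ) < r := hr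
    have hn : ‖(ω : E)‖ = 1 := by simp
    have hn2 : ‖r • (ω : E)‖ = r := by
      rw [norm_smul, hn, Real.norm_of_nonneg hr0.le, mul_one]
    have h2 : (r • (ω : E)) 2 = r * (ω : E) 2 := by simp
    simp only [quartic]
    rw [hn2, h2]
    ring
  simp_rw [h2] at h1
  rw [integral_mul_const] at h1
  have h3 : 0 ≤ ∫ r in Ioi (0 : ℝ), r ^ 6 * Real.exp (-r ^ 2) :=
    setIntegral_nonneg measurableSet_Ioi fun r hr => by positivity
  have h4 : 0 < √π ^ 3 / 8 := by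
    have := Real.sqrt_pos.mpr Real.pi_pos
    positivity
  rw [h1] at h4
  exact pos_of_mul_pos_left h4 h3

end Pool.Agent.Q177.Polar
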