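import Mathlib
import Pool.Agent.Q177.GaussMoment
import Pool.Agent.Q177.Field

/-!
The exterior region and the integral of the Lagrangian density.
-/

namespace Pool.Agent.Q177.Polar

open MeasureTheory Set Metric Real
open scoped Topology

/-- The region `V_s = {s (z² + r²/10) ≤ r}`. -/
def region (s : ℝ) : Set E := {x | s * (x 2 ^ 2 + ‖x‖ ^ 2 / 10) ≤ ‖x‖}

lemma coord_sq_le (x : E) : x 2 ^ 2 ≤ ‖x‖ ^ 2 := by
  rw [norm_sq_coord x]
  nlinarith [sq_nonneg (x 0), sq_nonneg (x 1)]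

lemma continuous_coord (i : Fin 3) : Continuous fun x : E => x i :=
  (EuclideanSpace.proj i : E →L[ℝ] ℝ).continuous

lemma isClosed_region (s : ℝ) : IsClosed (region s) := by
  have h1 := continuous_coord 2
  have h2 : Continuous fun x : E => ‖x‖ := continuous_norm
  exact isClosed_le (by fun_prop) h2

lemma zero_mem_region (s : ℝ) : (0 : E) ∈ region s := by
  simp [region]

/-- points outside the region are far from the origin -/
lemma lt_norm_of_notMem {s : ℝ} (hs : 0 < s) {x : E} (hx : x ∉ region s) :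
    1 / (2 * s) < ‖x‖ := by
  have h1 : ‖x‖ < s * (x 2 ^ 2 + ‖x‖ ^ 2 / 10) := by
    simpa [region] using hx
  have h2 := coord_sq_le x
  have h0 : 0 < ‖x‖ := by
    rcases (norm_nonneg x).eq_or_lt with h | h
    · exfalso
      rw [← h] at h1 h2
      nlinarith
    · exact h
  have h3 : ‖x‖ < s * (2 * ‖x‖ ^ 2) := by
    refine h1.trans_le ?_
    apply mul_le_mul_of_nonneg_left _ hs.le
    nlinarith [sq_nonneg ‖x‖]
  rw [div_lt_iff₀ (by positivity)]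
  have h4 : ‖x‖ * 1 < ‖x‖ * (‖x‖ * (2 * s)) := by nlinarith
  exact lt_of_mul_lt_mul_left h4 h0.le

lemma dens_measurable : Measurable dens := by
  have h1 : Measurable fun x : E => x 2 := (continuous_coord 2).measurable
  unfold dens
  fun_prop

lemma integrableOn_dens {s : ℝ} (hs : 0 < s) : IntegrableOn dens (region s)ᶜ := by
  set r0 : ℝ := 1 / (2 * s) with hr0
  have hr0pos : 0 < r0 := by positivity
  have hfin : (Module.finrank ℝ E : ℝ) < 4 := by simp; norm_num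
  have hI : Integrable (fun x : E => (1 + ‖x‖) ^ (-(4 : ℝ))) := integrable_one_add_norm hfin
  set C : ℝ := (3 + 4 / r0 ^ 2) * (1 + 1 / r0) ^ 4 with hC
  have hI2 : IntegrableOn (fun x : E => C * (1 + ‖x‖) ^ (-(4 : ℝ))) (region s)ᶜ :=
    (hI.const_mul C).integrableOn
  refine Integrable.mono' hI2 dens_measurable.aestronglyMeasurable ?_
  refine (ae_restrict_iff' (isClosed_region s).measurableSet.compl).mpr
    (Filter.Eventually.of_forall fun x hx => ?_)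
  have h1 : r0 < ‖x‖ := lt_norm_of_notMem hs hx
  have h0 : 0 < ‖x‖ := hr0pos.trans h1
  have h2 := coord_sq_le x
  have e1 : (1 + ‖x‖) ^ (-(4 : ℝ)) = ((1 + ‖x‖) ^ 4)⁻¹ := by
    rw [Real.rpow_neg (by positivity)]
    norm_cast
  rw [e1, Real.norm_eq_abs]
  have e2 : |dens x| ≤ 3 * (‖x‖ ^ 4)⁻¹ + 4 * (‖x‖ ^ 6)⁻¹ := by
    have a1 : 0 < (‖x‖ ^ 4)⁻¹ := by positivity
    have a2 : 0 < (‖x‖ ^ 6)⁻¹ := by positivity
    have a3 : x 2 ^ 2 * (‖x‖ ^ 6)⁻¹ ≤ (‖x‖ ^ 4)⁻¹ := by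
      calc x 2 ^ 2 * (‖x‖ ^ 6)⁻¹ ≤ ‖x‖ ^ 2 * (‖x‖ ^ 6)⁻¹ :=
            mul_le_mul_of_nonneg_right h2 a2.le
        _ = (‖x‖ ^ 4)⁻¹ := by field_simp
    have a4 : x 2 ^ 2 * (‖x‖ ^ 8)⁻¹ ≤ (‖x‖ ^ 6)⁻¹ := by
      calc x 2 ^ 2 * (‖x‖ ^ 8)⁻¹ ≤ ‖x‖ ^ 2 * (‖x‖ ^ 8)⁻¹ :=
            mul_le_mul_of_nonneg_right h2 (by positivity)
        _ = (‖x‖ ^ 6)⁻¹ := by field_simp
    have a5 : 0 ≤ x 2 ^ 2 * (‖x‖ ^ 6)⁻¹ := by positivity
    have a6 : 0 ≤ x 2 ^ 2 * (‖x‖ ^ 8)⁻¹ := by positivity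
    unfold dens
    rw [abs_le]
    constructor <;> nlinarith
  have e3 : 4 * (‖x‖ ^ 6)⁻¹ ≤ 4 / r0 ^ 2 * (‖x‖ ^ 4)⁻¹ := by
    have : (‖x‖ ^ 6)⁻¹ = (‖x‖ ^ 2)⁻¹ * (‖x‖ ^ 4)⁻¹ := by
      rw [← mul_inv]; congr 1; ring
    rw [this, div_eq_mul_inv, mul_assoc]
    apply mul_le_mul_of_nonneg_left _ (by norm_num)
    apply mul_le_mul_of_nonneg_right _ (by positivity)
    apply inv_anti₀ (by positivity)
    exact pow_le_pow_left₀ hr0pos.le h1.le 2
  have e4 : (‖x‖ ^ 4)⁻¹ ≤ (1 + 1 / r0) ^ 4 * ((1 + ‖x‖) ^ 4)⁻¹ := by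
    have : 1 + ‖x‖ ≤ (1 + 1 / r0) * ‖x‖ := by
      have : 1 ≤ 1 / r0 * ‖x‖ := by
        rw [one_div, ← div_eq_inv_mul, one_le_div hr0pos]
        exact h1.le
      nlinarith
    have h5 : (1 + ‖x‖) ^ 4 ≤ (1 + 1 / r0) ^ 4 * ‖x‖ ^ 4 := by
      rw [← mul_pow]
      exact pow_le_pow_left₀ (by positivity) this 4
    rw [← div_eq_mul_inv, inv_eq_one_div, div_le_div_iff₀ (by positivity) (by positivity)]
    linarith
  calc |dens x| ≤ 3 * (‖x‖ ^ 4)⁻¹ + 4 * (‖x‖ ^ 6)⁻¹ := e2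
    _ ≤ (3 + 4 / r0 ^ 2) * (‖x‖ ^ 4)⁻¹ := by linarith
    _ ≤ (3 + 4 / r0 ^ 2) * ((1 + 1 / r0) ^ 4 * ((1 + ‖x‖) ^ 4)⁻¹) :=
        mul_le_mul_of_nonneg_left e4 (by positivity)
    _ = C * ((1 + ‖x‖) ^ 4)⁻¹ := by rw [hC]; ring

/-- radial integrals -/
lemma radial_integral {ρ a b : ℝ} (hρ : 0 < ρ) :
    ∫ r in Ioi ρ, (a * r ^ (-(2 : ℝ)) - b * r ^ (-(4 : ℝ))) = a * ρ⁻¹ - b * ((ρ⁻¹) ^ 3 / 3) := by
  have h2 : IntegrableOn (fun r : ℝ => r ^ (-(2 : ℝ))) (Ioi ρ) :=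
    integrableOn_Ioi_rpow_of_lt (by norm_num) hρ
  have h4 : IntegrableOn (fun r : ℝ => r ^ (-(4 : ℝ))) (Ioi ρ) :=
    integrableOn_Ioi_rpow_of_lt (by norm_num) hρ
  rw [integral_sub (h2.const_mul a) (h4.const_mul b), integral_const_mul, integral_const_mul,
    integral_Ioi_rpow_of_lt (by norm_num) hρ, integral_Ioi_rpow_of_lt (by norm_num) hρ]
  have e1 : ρ ^ (-(2 : ℝ) + 1) = ρ⁻¹ := by
    rw [show (-(2 : ℝ) + 1) = -1 by norm_num, Real.rpow_neg_one]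
  have e2 : ρ ^ (-(4 : ℝ) + 1) = (ρ⁻¹) ^ 3 := by
    rw [show (-(4 : ℝ) + 1) = -((3 : ℕ) : ℝ) by norm_num, Real.rpow_neg hρ.le,
      Real.rpow_natCast, inv_pow]
  rw [e1, e2]
  ring

/-- sphere weights -/
noncomputable def wQ : ℝ := ∫ ω : sphere (0 : E) 1,
  (2 * (ω : E) 2 ^ 2 - 1) * ((ω : E) 2 ^ 2 + 1 / 10) ∂((volume : Measure E).toSphere)
noncomputable def wW : ℝ := ∫ ω : sphere (0 : E) 1,
  (1 + 3 * (ω : E) 2 ^ 2) * ((ω : E) 2 ^ 2 + 1 / 10) ^ 3 ∂((volume : Measure E).toSphere)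

theorem integral_dens {s : ℝ} (hs : 0 < s) :
    ∫ x in (region s)ᶜ, dens x = s * wQ - s ^ 3 / 3 * wW := by
  have hm := (isClosed_region s).measurableSet.compl
  rw [← integral_indicator hm, integral_polar ((integrable_indicator_iff hm).mpr
    (integrableOn_dens hs))]
  have h1 : ∀ ω : sphere (0 : E) 1,
      ∫ r in Ioi (0 : ℝ), r ^ 2 * (region s)ᶜ.indicator dens (r • (ω : E))
      = s * ((2 * (ω : E) 2 ^ 2 - 1) * ((ω : E) 2 ^ 2 + 1 / 10))
        - s ^ 3 / 3 * ((1 + 3 * (ω : E) 2 ^ 2) * ((ω : E) 2 ^ 2 + 1 / 10) ^ 3) := by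
    intro ω
    set c : ℝ := (ω : E) 2 with hc
    set ρ : ℝ := (s * (c ^ 2 + 1 / 10))⁻¹ with hρ
    have hρpos : 0 < ρ := by positivity
    have hn : ‖(ω : E)‖ = 1 := by simp
    have h2 : ∫ r in Ioi (0 : ℝ), r ^ 2 * (region s)ᶜ.indicator dens (r • (ω : E))
        = ∫ r in Ioi (0 : ℝ), (Ioi ρ).indicator
          (fun r => (2 * c ^ 2 - 1) * r ^ (-(2 : ℝ)) - (1 + 3 * c ^ 2) * r ^ (-(4 : ℝ))) r := by
      refine setIntegral_congr_fun measurableSet_Ioi fun r hr => ?_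
      have hr0 : (0 : ℝ) < r := hr
      have hn2 : ‖r • (ω : E)‖ = r := by
        rw [norm_smul, hn, Real.norm_of_nonneg hr0.le, mul_one]
      have hc2 : (r • (ω : E)) 2 = r * c := by simp [hc]
      have hiff : r • (ω : E) ∈ (region s)ᶜ ↔ r ∈ Ioi ρ := by
        simp only [region, mem_compl_iff, mem_ofPred_eq, not_le, hn2, hc2, mem_Ioi]
        rw [hρ, inv_lt_comm₀ (by positivity) hr0]
        rw [inv_lt_iff_one_lt_mul₀ hr0]
        constructor
        · intro h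
          have : r * 1 < r * (r * (s * (c ^ 2 + 1 / 10))) := by nlinarith
          have := lt_of_mul_lt_mul_left this hr0.le
          linarith
        · intro h
          have : r * 1 < r * (r * (s * (c ^ 2 + 1 / 10))) := by
            apply mul_lt_mul_of_pos_left _ hr0
            linarith
          nlinarith
      by_cases h : r ∈ Ioi ρ
      · rw [indicator_of_mem h, indicator_of_mem (hiff.mpr h)]
        have e1 : r ^ (-(2 : ℝ)) = (r ^ 2)⁻¹ := by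
          rw [Real.rpow_neg hr0.le]; norm_cast
        have e2 : r ^ (-(4 : ℝ)) = (r ^ 4)⁻¹ := by
          rw [Real.rpow_neg hr0.le]; norm_cast
        simp only [dens]
        rw [hn2, hc2, e1, e2]
        field_simp
        ring
      · rw [indicator_of_notMem h, indicator_of_notMem (fun h' => h (hiff.mp h')), mul_zero]
    rw [h2, setIntegral_indicator measurableSet_Ioi,
      inter_eq_self_of_subset_right (Ioi_subset_Ioi hρpos.le), radial_integral hρpos, hρ, inv_inv]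
    ring
  simp_rw [h1]
  have hcont : ∀ (g : ℝ → ℝ), Continuous g →
      Integrable (fun ω : sphere (0 : E) 1 => g ((ω : E) 2))
        ((volume : Measure E).toSphere) := by
    intro g hg
    have : Continuous (fun ω : sphere (0 : E) 1 => g ((ω : E) 2)) :=
      hg.comp ((continuous_coord 2).comp continuous_subtype_val)
    exact this.integrable_of_hasCompactSupport (HasCompactSupport.of_compactSpace _)
  rw [integral_sub, integral_const_mul, integral_const_mul, wQ, wW]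
  · exact (hcont (fun c => (2 * c ^ 2 - 1) * (c ^ 2 + 1 / 10)) (by fun_prop)).const_mul s
  · exact (hcont (fun c => (1 + 3 * c ^ 2) * (c ^ 2 + 1 / 10) ^ 3) (by fun_prop)).const_mul _

end Pool.Agent.Q177.Polar
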